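import Pool.Agent.helper24_UT.Ch3

set_option autoImplicit false

/-!
# The number of primes `q ≤ y` for which `a_1 + d_1 q, …, a_k + d_k q` are prime, for almost all `(a, d)`

Let `k, e, m ≥ 1` and `A` be fixed, let `H` be large and `H ^ (1 / e) ≤ R_i ≤ Q_i ≤ H`. For all but at most
`∏ Q_i R_i / (log H) ^ A` of the vectors `(a_1, d_1, …, a_k, d_k)` with `|a_i| ≤ R_i`, `1 ≤ d_i ≤ Q_i` the asymptotic formula of
Hardy and Littlewood for the number of the primes `q ≤ y` with all `|a_i + d_i q|` prime holds with a relative error of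
`(log H) ^ (-A)`, for all `y ≥ exp ((log H) ^ (1 / m))` with `Q_i y (log H) ^ B ≤ R_i ^ 2`, provided that there is no local
obstruction and no two of the forms are proportional. The question is the case `k = 1`: the pairs `(a, d)` with
`|a| ≤ R`, `1 ≤ d ≤ Q`, `gcd(a, d) = 1` and `2 ∣ a d`; for `Q = R = H` one can take all `y` between
`exp ((log H) ^ (1 / m))` and `H / (log H) ^ B`.

Proof. The main step (`Pool.Agent.helper24_UT.Ch.t_ALL3`) is that for the difference `D` of the primes and their sieve model and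
for ANY bounded weights `w_n` the sums `∑_{n ≤ y} w_n D(a + d n)` are small for almost all `(a, d)`; it is used with the
weights `w_q = log q` on the primes, and it allows to replace the primes by the model in one form after the other. (Pairs
`n, n'`: large sieve for the residue classes modulo `n - n'` in almost all intervals of length `W ≥ X ^ (1 / 2) (log X) ^ C`, for which
Vaughan's identity on the frequencies `n ^ (-i t)`, `|t| ≤ X / W`, and a bound of the type of Vinogradov and Korobov for the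
sums `∑ Λ(n) χ(n) n ^ (-i t)` with small moduli are used.) The remaining sums of the sieve model over primes are evaluated by
the fundamental lemma and the theorem of Bombieri and Vinogradov.
-/

namespace Pool.Agent.Results.MP_8bf9c2_nt.AlmostAllFormula

open Finset Polynomial

variable {k : ℕ}

open Classical in
/-- the number of the nonzero residue classes `t` modulo `p` for which some `a_i + d_i t` is divisible by `p` -/
noncomputable def omega (a : Fin k → ℤ) (d : Fin k → ℕ) (p : ℕ) : ℕ :=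
  ((range p).filter (fun t : ℕ => ¬ p ∣ t ∧ ∃ i, (p : ℤ) ∣ a i + d i * t)).card

/-- the singular series `∏_p (1 - ω(p) / (p - 1)) (1 - 1 / p) ^ (-k)` -/
noncomputable def series (a : Fin k → ℤ) (d : Fin k → ℕ) : ℝ :=
  ∏' p : Nat.Primes, (1 - (omega a d p : ℝ) / (((p : ℕ) : ℝ) - 1)) / (1 - 1 / ((p : ℕ) : ℝ)) ^ k

/-- the number of the primes `q ≤ y` for which all `|a_i + d_i q|` are prime -/
noncomputable def count (a : Fin k → ℤ) (d : Fin k → ℕ) (y : ℕ) : ℕ :=
  {q : ℕ | q.Prime ∧ q ≤ y ∧ ∀ i, (a i + d i * q).natAbs.Prime}.ncard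

/-- `∑_{2 ≤ n ≤ y} (1 / log n) ∏_i 1 / log |a_i + d_i n|` (with `1 / 0 = 0`) -/
noncomputable def logSum (a : Fin k → ℤ) (d : Fin k → ℕ) (y : ℕ) : ℝ :=
  ∑ n ∈ Icc 2 y, 1 / Real.log n * ∏ i, 1 / Real.log (abs ((a i + d i * n : ℤ) : ℝ))

/-- the hypotheses of the question for several forms: `a_i ≠ 0`, no two forms are proportional, and no prime divides
`n (a_1 + d_1 n) ⋯ (a_k + d_k n)` for all `n` -/
def Admissible (a : Fin k → ℤ) (d : Fin k → ℕ) : Prop :=
  (∀ i, a i ≠ 0) ∧ (∀ i j, i ≠ j → a i * d j ≠ a j * d i) ∧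
    ∀ p : ℕ, p.Prime → ∃ n : ℤ, ¬ (p : ℤ) ∣ n ∧ ∀ i, ¬ (p : ℤ) ∣ a i + d i * n

/-- the asymptotic formula in the whole range of `y` -/
def Formula (A B m H : ℕ) (Q R : Fin k → ℕ) (a : Fin k → ℤ) (d : Fin k → ℕ) : Prop :=
  ∀ y : ℕ, Real.exp ((Real.log H) ^ (1 / m : ℝ)) ≤ y → (∀ i, (Q i : ℝ) * y * Real.log H ^ B ≤ (R i : ℝ) ^ 2) →
    |(count a d y : ℝ) - series a d * logSum a d y| ≤ series a d * logSum a d y / Real.log H ^ A

open Classical in
/-- the number of the admissible `(a, d)`, `|a_i| ≤ R_i`, `1 ≤ d_i ≤ Q_i`, for which the formula fails -/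
noncomputable def exceptions (A B m H : ℕ) (Q R : Fin k → ℕ) : ℕ :=
  ((Fintype.piFinset (fun i => Icc (-(R i : ℤ)) (R i)) ×ˢ Fintype.piFinset (fun i => Icc 1 (Q i))).filter
    (fun x : (Fin k → ℤ) × (Fin k → ℕ) => Admissible x.1 x.2 ∧ ¬ Formula A B m H Q R x.1 x.2)).card

theorem omega_eq (a : Fin k → ℤ) (d : Fin k → ℕ) (p : ℕ) :
    Pool.Agent.helper24_UT.omp (Pool.Agent.helper24_UT.lin a d) p = omega a d p := by
  unfold Pool.Agent.helper24_UT.omp omega Pool.Agent.helper24_UT.lin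
  simp only [Polynomial.eval_add, Polynomial.eval_mul, Polynomial.eval_C, Polynomial.eval_X]

theorem series_eq (a : Fin k → ℤ) (d : Fin k → ℕ) : Pool.Agent.helper24_UT.serp a d = series a d := by
  unfold Pool.Agent.helper24_UT.serp series
  congr 1
  funext p
  rw [omega_eq]

/-- **The formula of Hardy and Littlewood for primes `q` with `a_1 + d_1 q, …, a_k + d_k q` prime, for almost all `(a, d)`.** -/
theorem result (k e A m : ℕ) (hk : 1 ≤ k) (he : 1 ≤ e) (hm : 1 ≤ m) : ∃ B H₀ : ℕ, ∀ H : ℕ, H₀ ≤ H →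
    ∀ Q R : Fin k → ℕ, (∀ i, (H : ℝ) ^ (1 / e : ℝ) ≤ R i ∧ R i ≤ Q i ∧ Q i ≤ H) →
    (exceptions A B m H Q R : ℝ) ≤ (∏ i, ((Q i : ℝ) * R i)) / Real.log H ^ A := by
  classical
  obtain ⟨B, H₀, h⟩ := Pool.Agent.helper24_UT.Ch.t_R2 k e A m hk he hm
  refine ⟨B, H₀, fun H hH Q R hQR => ?_⟩
  refine le_trans ?_ (h H hH Q R hQR)
  refine Nat.cast_le.2 (card_le_card fun x hx => ?_)
  have hx := mem_filter.1 hx
  refine mem_filter.2 ⟨hx.1, hx.2.1, fun hc => hx.2.2 fun y h1 h2 => ?_⟩
  have h3 := hc y h1 h2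
  rw [series_eq] at h3
  exact h3

end Pool.Agent.Results.MP_8bf9c2_nt.AlmostAllFormula
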