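import Pool.Agent.Z296.AP.FinA

/-!
# Almost all tuples of pairs `(a, d)` make `a + q d` almost prime at the same prime arguments `q`

A pair `(a, d)` stands for the map `q ↦ a + q d`. For every `k` and every finite set `V` of pairs with
`d ≥ 1`, for all but at most `C |V| ^ (k - η)` of the admissible `k`-tuples `(a_1, d_1), ..., (a_k, d_k)` of
elements of `V` (`C` and `η > 0` depend only on `k`) there are infinitely many primes `q` for which every one
of `a_1 + q d_1, ..., a_k + q d_k` is a prime or a product of two primes; for arbitrarily large `x` there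
are at least `x / (log x) ^ B` such `q ≤ x`, and the prime factors are larger than `x ^ δ`. The same holds
uniformly at every large `x`, for sets `V` which may depend on `x`.

For `k = 1` this is contained in Chen's theorem; for `k ≥ 2` the values for a given tuple were known to be
almost primes only with more prime factors.

Proof: the coloured Maynard-Tao theorem with a given prime form (`Pool.Agent.Z296.AP.thmQ`): from every box
of `k` classes of `K` pairs one can choose one pair in every class such that all of them are almost prime at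
the same prime arguments. The number of prime factors is detected in a class by a weighted sieve of level
`111 / 200 > 6 / 11`, summed over the class and averaged by a second moment; the level above one half comes
from the bilinear estimates for the second moment of the library (`Pool.Agent.Y827.LS`, `Y827.GS`, `Y827.RO`,
starting files). Then Erdos's box lemma with explicit exponents.
-/

set_option autoImplicit false

namespace Pool.Agent.Results.MP_8bf9c2_nt.AlmostPrimesOfAlmostAllTuples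

open Finset Filter

/-- `m` is a prime `> y` or the product of two primes `> y` -/
def P2 (y : ℝ) (m : ℤ) : Prop :=
  ∃ p : ℕ, p.Prime ∧ y < p ∧ (m = p ∨ ∃ r : ℕ, r.Prime ∧ y < r ∧ m = p * r)

/-- the pairs `f i = (a_i, d_i)` are jointly admissible: no prime divides `q ∏ (a_i + q d_i)` for all
integers `q` -/
def Admissible {k : ℕ} (f : Fin k → ℤ × ℤ) : Prop :=
  ∀ p : ℕ, p.Prime → ∃ q : ℤ, ¬ (p : ℤ) ∣ q ∧ ∀ i, ¬ (p : ℤ) ∣ (f i).1 + q * (f i).2

/-- the number of the primes `q ≤ x` for which every `a_i + q d_i` is a prime `> x ^ δ` or the product of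
two primes `> x ^ δ` -/
noncomputable def count {k : ℕ} (δ : ℝ) (f : Fin k → ℤ × ℤ) (x : ℕ) : ℕ :=
  {q : ℕ | q ≤ x ∧ q.Prime ∧ ∀ i, P2 ((x : ℝ) ^ δ) ((f i).1 + q * (f i).2)}.ncard

/-- there are infinitely many primes `q` for which every `a_i + q d_i` is a prime or the product of two
primes, and for arbitrarily large `x` there are at least `x / (log x) ^ B` such primes up to `x`, with all
the prime factors larger than `x ^ δ` -/
def Good {k : ℕ} (δ : ℝ) (B : ℕ) (f : Fin k → ℤ × ℤ) : Prop :=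
  {q : ℕ | q.Prime ∧ ∀ i, P2 1 ((f i).1 + q * (f i).2)}.Infinite ∧
    ∃ᶠ x : ℕ in atTop, (x : ℝ) / (Real.log x) ^ B ≤ (count δ f x : ℝ)

open Pool.Agent.Z296.AP in
theorem cnt_eq {k : ℕ} (δ : ℝ) (f : Fin k → ℤ × ℤ) (x : ℕ) :
    cntQ δ (fun i => (f i).swap) x = count δ f x := by
  classical
  unfold cntQ count
  rw [← Set.ncard_coe_finset]
  congr 1
  ext q
  rw [mem_coe, mem_filter, mem_Icc, Set.mem_ofPred_eq]
  constructor
  · rintro ⟨⟨h1, h2⟩, h3, h4⟩
    refine ⟨h2, h3, fun i => ?_⟩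
    have h5 := h4 i
    have h6 : (f i).swap.1 * (q : ℤ) + (f i).swap.2 = (f i).1 + q * (f i).2 := by
      simp only [Prod.fst_swap, Prod.snd_swap]
      ring
    rw [h6] at h5
    exact h5
  · rintro ⟨h2, h3, h4⟩
    refine ⟨⟨h3.one_lt.le, h2⟩, h3, fun i => ?_⟩
    have h6 : (f i).swap.1 * (q : ℤ) + (f i).swap.2 = (f i).1 + q * (f i).2 := by
      simp only [Prod.fst_swap, Prod.snd_swap]
      ring
    rw [h6]
    exact h4 i

open Pool.Agent.Z296.AP in
theorem adm_iff {k : ℕ} (f : Fin k → ℤ × ℤ) : AdmQ (fun i => (f i).swap) ↔ Admissible f := by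
  unfold AdmQ Admissible
  have h6 : ∀ (i : Fin k) (r : ℤ), (f i).swap.1 * r + (f i).swap.2 = (f i).1 + r * (f i).2 := by
    intro i r
    simp only [Prod.fst_swap, Prod.snd_swap]
    ring
  simp only [h6]

theorem inf_of {k : ℕ} {δ : ℝ} (hδ : 0 < δ) {B : ℕ} {f : Fin k → ℤ × ℤ}
    (h : ∃ᶠ x : ℕ in atTop, (x : ℝ) / (Real.log x) ^ B ≤ (count δ f x : ℝ)) :
    {q : ℕ | q.Prime ∧ ∀ i, P2 1 ((f i).1 + q * (f i).2)}.Infinite := by
  intro hfin
  set S := {q : ℕ | q.Prime ∧ ∀ i, P2 1 ((f i).1 + q * (f i).2)} with hS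
  have h1 := Pool.Agent.W25.UN.ev_poly ((S.ncard : ℝ) + 1) B 0 1 one_pos
  obtain ⟨x, hx1, hx2, hx3, hx4⟩ := (h.and_eventually (h1.and
    ((Pool.Agent.W25.UN.ev_log 1).and (eventually_ge_atTop 1)))).exists
  have hx0 : (0 : ℝ) < x := by exact_mod_cast hx4
  have hxr : (1 : ℝ) ≤ x := by exact_mod_cast hx4
  have hl : 0 < Real.log x := by linarith
  rw [Real.rpow_zero, mul_one, Real.rpow_one] at hx2
  have h2 : (S.ncard : ℝ) + 1 ≤ (x : ℝ) / (Real.log x) ^ B := by
    rw [le_div_iff₀ (by positivity)]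
    exact hx2
  have h3 : count δ f x ≤ S.ncard := by
    apply Set.ncard_le_ncard _ hfin
    rintro q ⟨-, h4, h5⟩
    refine ⟨h4, fun i => ?_⟩
    obtain ⟨p, h6, h7, h8⟩ := h5 i
    have h9 : (1 : ℝ) ≤ (x : ℝ) ^ δ := Real.one_le_rpow hxr hδ.le
    refine ⟨p, h6, lt_of_le_of_lt h9 h7, ?_⟩
    rcases h8 with h8 | ⟨r, h10, h11, h12⟩
    · exact Or.inl h8
    · exact Or.inr ⟨r, h10, lt_of_le_of_lt h9 h11, h12⟩
  have h4 : (count δ f x : ℝ) ≤ S.ncard := by exact_mod_cast h3
  linarith

/-- **Main theorem.** For every `k` there are `δ, η > 0`, `C` and `B` such that (1) for every finite set `V` of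
pairs `(a, d)` with `d ≥ 1` all but at most `C |V| ^ (k - η)` of the admissible `k`-tuples of elements of `V`
are good; (2) for every `A` and all large `x`, for every finite set `V` of pairs `(a, d)` with `1 ≤ d ≤ A` and
`|a| ≤ x / 48`, for all but at most `C |V| ^ (k - η)` of the admissible `k`-tuples of elements of `V` there are
at least `x / (log x) ^ B` primes `q ≤ x` counted by `count δ f x`. -/
theorem result (k : ℕ) (hk : 1 ≤ k) : ∃ (δ η C : ℝ) (B : ℕ), 0 < δ ∧ 0 < η ∧
    (∀ V : Finset (ℤ × ℤ), (∀ f ∈ V, 1 ≤ f.2) →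
      ({f : Fin k → ℤ × ℤ | (∀ i, f i ∈ V) ∧ Admissible f ∧ ¬ Good δ B f}.ncard : ℝ) ≤
        C * (V.card : ℝ) ^ ((k : ℝ) - η)) ∧
    ∀ A : ℕ, ∀ᶠ x : ℕ in atTop, ∀ V : Finset (ℤ × ℤ),
      (∀ f ∈ V, 1 ≤ f.2 ∧ f.2 ≤ A ∧ 48 * |f.1| ≤ x) →
      ({f : Fin k → ℤ × ℤ | (∀ i, f i ∈ V) ∧ Admissible f ∧
        (count δ f x : ℝ) < (x : ℝ) / (Real.log x) ^ B}.ncard : ℝ) ≤
        C * (V.card : ℝ) ^ ((k : ℝ) - η) := by
  classical
  obtain ⟨δ, η, C, B, hδ, hη, h1, h2⟩ := Pool.Agent.Z296.AP.finA k hk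
  simp only [adm_iff, cnt_eq] at h1 h2
  refine ⟨δ, η, C, B, hδ, hη, fun V hV => ?_, h2⟩
  refine le_trans ?_ (h1 V hV)
  rw [Nat.cast_le]
  apply Set.ncard_le_ncard
  · rintro f ⟨hf1, hf2, hf3⟩
    refine ⟨hf1, hf2, ?_⟩
    by_contra hc
    apply hf3
    have h4 : ∃ᶠ x : ℕ in atTop, (x : ℝ) / (Real.log x) ^ B ≤ (count δ f x : ℝ) := by
      have h5 := Filter.not_eventually.1 hc
      exact h5.mono fun x hx => not_lt.1 hx
    exact ⟨inf_of hδ h4, h4⟩
  · apply (Fintype.piFinset (fun _ : Fin k => V)).finite_toSet.subset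
    rintro f ⟨hf, -⟩
    rw [mem_coe, Fintype.mem_piFinset]
    exact hf

end Pool.Agent.Results.MP_8bf9c2_nt.AlmostPrimesOfAlmostAllTuples
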