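import Pool.Agent.helper24_UT.Ch11

set_option autoImplicit false

/-!
# The number of primes `q ≤ y` for which `a_1 + d_1 q, …, a_k + d_k q` are prime, for almost all `(a, d)`, and `y` much larger
# than the coefficients

Let `k ≥ 1`, `ε > 0` and `A` be fixed, let `H` be large and `H ^ ε ≤ Q_i ≤ R_i ≤ H`. The asymptotic formula of Hardy and Littlewood
for the number of the primes `q ≤ y` with all `|a_i + d_i q|` prime, with a positive singular series and with a relative
error of at most `(log H) ^ (-A)`, holds for all `y ≥ exp ((log H) ^ ε)` with `R_i ^ (1 / 3 + ε) ≤ Q_i y ≤ R_i ^ (3 - ε)`, for all but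
at most `∏ Q_i R_i / (log H) ^ A` of the admissible vectors `(a, d)` with `1 ≤ d_i ≤ Q_i` and `1 ≤ a_i ≤ R_i`; if `Q_i = R_i` for
all `i` (then the range is `y ≤ R_i ^ (2 - ε)`), also for the vectors with `|a_i| ≤ R_i`.
The question is the case `k = 1`: the pairs `(a, d)` with `d ≥ 1`, `gcd(a, d) = 1` and `2 ∣ a d`. (`AlmostAllFormula` of this folder
has `Q_i ≥ R_i` and `Q_i y (log H) ^ B ≤ R_i ^ 2`, that is `y ≤ H / (log H) ^ B` for `Q_i = R_i = H`.)

Proof. The differences `D` of the primes and their sieve model satisfy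
`∑_{x ≤ X} |∑_{x < m ≤ x + K} D(m) e(m α)| ^ 2 ≤ X K ^ 2 / (log X) ^ A` uniformly in `α`, for `K ≥ X ^ (1 / 3 + ε)`
(`Pool.Agent.helper24_UT.Ch.t_MK`; identity of Heath-Brown, Type II sums and divisor sums on the minor arcs, mean values of
Dirichlet polynomials, van der Corput's estimate and a bound of the type of Vinogradov and Korobov on the major arcs; the
method of Mikawa). Second moment over the pairs `(a, d)`: for `n' < n` the pairs of values `(a + d n, a + d n')` are
correlations at the distances `d (n - n')`, and Parseval's identity bounds them by the exponential sums. This holds with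
arbitrary bounded weights, here with weights on the primes, and it allows to replace the primes by the model in one form
after the other; the remaining sums of the model over primes are evaluated by the fundamental lemma and the theorem
of Bombieri and Vinogradov.
-/

namespace Pool.Agent.Results.MP_8bf9c2_nt.BeyondTheBox

open Finset Polynomial

variable {k : ℕ}

open Classical in
/-- the number of the nonzero residue classes `t` modulo `p` for which some `a_i + d_i t` is divisible by `p` -/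
noncomputable def omega (a : Fin k → ℤ) (d : Fin k → ℕ) (p : ℕ) : ℕ :=
  ((range p).filter (fun t : ℕ => ¬ p ∣ t ∧ ∃ i, (p : ℤ) ∣ a i + d i * t)).card

/-- the singular series `∏_p (1 - ω(p) / (p - 1)) (1 - 1 / p) ^ (-k)` -/
noncomputable def series (a : Fin k → ℤ) (d : Fin k → ℕ) : ℝ :=
  ∏' p : Nat.Primes, (1 - (omega a d p : ℝ) / (((p : ℕ) : ℝ) - 1)) / (1 - 1 / ((p : ℕ) : ℝ)) ^ k

/-- the number of the primes `q ≤ y` for which all `|a_i + d_i q|` are prime -/
noncomputable def count (a : Fin k → ℤ) (d : Fin k → ℕ) (y : ℕ) : ℕ :=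
  {q : ℕ | q.Prime ∧ q ≤ y ∧ ∀ i, (a i + d i * q).natAbs.Prime}.ncard

/-- `∑_{2 ≤ n ≤ y} (1 / log n) ∏_i 1 / log |a_i + d_i n|` (with `1 / 0 = 0`) -/
noncomputable def logSum (a : Fin k → ℤ) (d : Fin k → ℕ) (y : ℕ) : ℝ :=
  ∑ n ∈ Icc 2 y, 1 / Real.log n * ∏ i, 1 / Real.log (abs ((a i + d i * n : ℤ) : ℝ))

/-- the hypotheses of the question for several forms: `a_i ≠ 0`, no two forms are proportional, and no prime divides
`n (a_1 + d_1 n) ⋯ (a_k + d_k n)` for all `n` -/
def Admissible (a : Fin k → ℤ) (d : Fin k → ℕ) : Prop :=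
  (∀ i, a i ≠ 0) ∧ (∀ i j, i ≠ j → a i * d j ≠ a j * d i) ∧
    ∀ p : ℕ, p.Prime → ∃ n : ℤ, ¬ (p : ℤ) ∣ n ∧ ∀ i, ¬ (p : ℤ) ∣ a i + d i * n

/-- the singular series is positive and the asymptotic formula holds for all `y` of the range -/
def Holds (ε : ℝ) (A H : ℕ) (Q R : Fin k → ℕ) (a : Fin k → ℤ) (d : Fin k → ℕ) : Prop :=
  0 < series a d ∧ ∀ y : ℕ, Real.exp ((Real.log H) ^ ε) ≤ y →
    (∀ i, (R i : ℝ) ^ (1 / 3 + ε) ≤ (Q i : ℝ) * y ∧ (Q i : ℝ) * y ≤ (R i : ℝ) ^ (3 - ε)) →
    |(count a d y : ℝ) - series a d * logSum a d y| ≤ series a d * logSum a d y / Real.log H ^ A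

open Classical in
/-- the number of the admissible `(a, d)`, `P_i ≤ a_i ≤ R_i`, `1 ≤ d_i ≤ Q_i`, for which `Holds` is false -/
noncomputable def exceptions (ε : ℝ) (A H : ℕ) (Q R : Fin k → ℕ) (P : Fin k → ℤ) : ℕ :=
  ((Fintype.piFinset (fun i => Icc (P i) (R i : ℤ)) ×ˢ Fintype.piFinset (fun i => Icc 1 (Q i))).filter
    (fun x : (Fin k → ℤ) × (Fin k → ℕ) => Admissible x.1 x.2 ∧ ¬ Holds ε A H Q R x.1 x.2)).card

theorem omega_eq (a : Fin k → ℤ) (d : Fin k → ℕ) (p : ℕ) :
    Pool.Agent.helper24_UT.omp (Pool.Agent.helper24_UT.lin a d) p = omega a d p := by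
  unfold Pool.Agent.helper24_UT.omp omega Pool.Agent.helper24_UT.lin
  simp only [Polynomial.eval_add, Polynomial.eval_mul, Polynomial.eval_C, Polynomial.eval_X]

theorem series_eq (a : Fin k → ℤ) (d : Fin k → ℕ) : Pool.Agent.helper24_UT.serp a d = series a d := by
  unfold Pool.Agent.helper24_UT.serp series
  congr 1
  funext p
  rw [omega_eq]

/-- **The formula of Hardy and Littlewood for primes `q` with `a_1 + d_1 q, …, a_k + d_k q` prime, for almost all `(a, d)`, beyond
the size of the coefficients.** -/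
theorem result (k : ℕ) (ε : ℝ) (A : ℕ) (hk : 1 ≤ k) (hε : 0 < ε) : ∃ H₀ : ℕ, ∀ H : ℕ, H₀ ≤ H → ∀ Q R : Fin k → ℕ,
    (∀ i, (H : ℝ) ^ ε ≤ Q i ∧ Q i ≤ R i ∧ R i ≤ H) → ∀ P : Fin k → ℤ, ((∀ i, P i = 1) ∨ ∀ i, P i = -(R i : ℤ) ∧ Q i = R i) →
      (exceptions ε A H Q R P : ℝ) ≤ (∏ i, ((Q i : ℝ) * R i)) / Real.log H ^ A := by
  classical
  obtain ⟨e, he⟩ := exists_nat_gt (1 / ε)
  have he1 : 1 ≤ e := by
    have h1 : 0 < 1 / ε := by positivity
    have h2 : (0 : ℝ) < e := h1.trans he
    exact_mod_cast h2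
  have he0 : (0 : ℝ) < e := by exact_mod_cast he1
  have hle : 1 / (e : ℝ) ≤ ε := by
    rw [div_le_iff₀ he0]
    rw [div_lt_iff₀ hε] at he
    linarith
  obtain ⟨H₀, h⟩ := Pool.Agent.helper24_UT.Ch.t_R11G k e A e hk he1 he1
  obtain ⟨_, H₂, h2⟩ := Pool.Agent.helper24_UT.Ch.t_R11 k e A e hk he1 he1
  obtain ⟨H₁, h1⟩ := Pool.Agent.helper24_UT.Tlp.main k
  refine ⟨max (max (max H₀ H₁) H₂) 3, fun H hH => ?_⟩
  have hH0 : H₀ ≤ H := (((le_max_left _ _).trans (le_max_left _ _)).trans (le_max_left _ _)).trans hH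
  have hH1 : H₁ ≤ H := (((le_max_right _ _).trans (le_max_left _ _)).trans (le_max_left _ _)).trans hH
  have hH2 : H₂ ≤ H := ((le_max_right _ _).trans (le_max_left _ _)).trans hH
  have hH3 : 3 ≤ H := (le_max_right _ _).trans hH
  have hHr : (1 : ℝ) ≤ H := by exact_mod_cast (by omega : 1 ≤ H)
  have hlog1 : 1 ≤ Real.log H := by
    rw [Real.le_log_iff_exp_le (by linarith)]
    have := Real.exp_one_lt_d9
    have h3 : (3 : ℝ) ≤ H := by exact_mod_cast hH3
    linarith
  have hexp : ∀ y : ℕ, Real.exp ((Real.log H) ^ ε) ≤ y → Real.exp ((Real.log H) ^ (1 / e : ℝ)) ≤ y := by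
    intro y hy
    refine le_trans (Real.exp_le_exp.2 ?_) hy
    exact Real.rpow_le_rpow_of_exponent_le hlog1 hle
  intro Q R hQR P hP
  rcases hP with hP | hP
  · obtain rfl : P = fun _ => 1 := funext hP
    have hpos : ∀ i, 1 ≤ Q i := by
      intro i
      have h2 : (1 : ℝ) ≤ (H : ℝ) ^ ε := Real.one_le_rpow hHr hε.le
      have h3 : (1 : ℝ) ≤ Q i := h2.trans (hQR i).1
      exact_mod_cast h3
    have hrg : ∀ i, Pool.Agent.helper24_UT.Rg5 e H (Q i) (R i) := by
      intro i
      refine ⟨le_trans ?_ (hQR i).1, (hQR i).2.1, (hQR i).2.2⟩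
      exact Real.rpow_le_rpow_of_exponent_le hHr hle
    refine le_trans ?_ (h H hH0 Q R hrg)
    unfold exceptions
    rw [Nat.cast_le]
    apply card_le_card_of_injOn (fun x => (fun i => (x.1 i).toNat, x.2))
    · intro x hx
      rw [mem_coe, mem_filter, mem_product, Fintype.mem_piFinset, Fintype.mem_piFinset] at hx
      rw [mem_coe, mem_filter, mem_product, Fintype.mem_piFinset, Fintype.mem_piFinset]
      obtain ⟨⟨hxa0, hxb⟩, hx2, hx3⟩ := hx
      have hxa : ∀ i, 1 ≤ x.1 i ∧ x.1 i ≤ (R i : ℤ) := fun i => mem_Icc.1 (hxa0 i)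
      have hcast : (fun i => (((x.1 i).toNat : ℕ) : ℤ)) = x.1 := by
        funext i
        have := (hxa i).1
        omega
      refine ⟨⟨fun i => ?_, hxb⟩, ?_, ?_⟩
      · have := hxa i
        rw [mem_Icc]
        constructor
        · show 1 ≤ (x.1 i).toNat
          omega
        · show (x.1 i).toNat ≤ R i
          omega
      · show Pool.Agent.helper24_UT.AdmP (fun i => (((x.1 i).toNat : ℕ) : ℤ)) x.2
        rw [hcast]
        exact hx2
      · intro hc
        apply hx3
        refine ⟨?_, fun y hy hyr => ?_⟩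
        · have h4 := (h1 H hH1 x.1 x.2 (fun i => by
            have h5 := hxa i
            have h6 := mem_Icc.1 (hxb i)
            have h7 := (hQR i).2
            refine ⟨by omega, ?_, h6.1, by omega⟩
            rw [abs_of_nonneg (by omega)]
            have : (R i : ℤ) ≤ H := by exact_mod_cast h7.2
            omega) hx2.2.1 hx2.2.2 ⌈(Real.log H) ^ 3⌉₊ (Nat.le_ceil _)).1
          rwa [series_eq] at h4
        · have h3 := hc y (hexp y hy) (fun i => by
            have hR1 : (1 : ℝ) ≤ R i := by exact_mod_cast (hpos i).trans (hQR i).2.1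
            refine ⟨le_trans ?_ (hyr i).1, le_trans (hyr i).2 ?_⟩
            · apply Real.rpow_le_rpow_of_exponent_le hR1
              linarith
            · apply Real.rpow_le_rpow_of_exponent_le hR1
              linarith)
          have h4 : |(Pool.Agent.helper24_UT.cntP (fun i => (((x.1 i).toNat : ℕ) : ℤ)) x.2 y : ℝ) -
              Pool.Agent.helper24_UT.serp (fun i => (((x.1 i).toNat : ℕ) : ℤ)) x.2 *
                Pool.Agent.helper24_UT.exP (fun i => (((x.1 i).toNat : ℕ) : ℤ)) x.2 y| ≤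
              Pool.Agent.helper24_UT.serp (fun i => (((x.1 i).toNat : ℕ) : ℤ)) x.2 *
                Pool.Agent.helper24_UT.exP (fun i => (((x.1 i).toNat : ℕ) : ℤ)) x.2 y / Real.log H ^ A := h3
          rw [hcast, series_eq] at h4
          exact h4
    · intro x hx w hw hxw
      rw [mem_coe, mem_filter, mem_product, Fintype.mem_piFinset, Fintype.mem_piFinset] at hx hw
      simp only [Prod.mk.injEq] at hxw
      ext i
      · have h5 : (x.1 i).toNat = (w.1 i).toNat := congrFun hxw.1 i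
        have h6 : 1 ≤ x.1 i := (mem_Icc.1 (hx.1.1 i)).1
        have h7 : 1 ≤ w.1 i := (mem_Icc.1 (hw.1.1 i)).1
        omega
      · exact congrFun hxw.2 i
  · obtain rfl : P = fun i => -(R i : ℤ) := funext fun i => (hP i).1
    have hQReq : R = Q := funext fun i => (hP i).2.symm
    clear hP
    subst hQReq
    have hR : ∀ i, (H : ℝ) ^ ε ≤ R i ∧ R i ≤ H := fun i => ⟨(hQR i).1, (hQR i).2.2⟩
    have hR1 : ∀ i, (1 : ℝ) ≤ R i := fun i => (Real.one_le_rpow hHr hε.le).trans (hR i).1
    have hrg : ∀ i, (H : ℝ) ^ (1 / e : ℝ) ≤ R i ∧ R i ≤ H := by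
      intro i
      refine ⟨le_trans ?_ (hR i).1, (hR i).2⟩
      exact Real.rpow_le_rpow_of_exponent_le hHr hle
    refine le_trans ?_ (h2 H hH2 R hrg)
    unfold exceptions
    refine Nat.cast_le.2 (card_le_card fun x hx => ?_)
    rw [mem_filter, mem_product, Fintype.mem_piFinset, Fintype.mem_piFinset] at hx
    rw [mem_filter, mem_product, Fintype.mem_piFinset, Fintype.mem_piFinset]
    obtain ⟨⟨hxa, hxb⟩, hx2, hx3⟩ := hx
    refine ⟨⟨hxa, hxb⟩, hx2, fun hc => hx3 ⟨?_, fun y hy hyr => ?_⟩⟩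
    · have h4 := (h1 H hH1 x.1 x.2 (fun i => by
        have h5 := mem_Icc.1 (hxa i)
        have h6 := mem_Icc.1 (hxb i)
        have h7 := (hR i).2
        refine ⟨hx2.1 i, ?_, h6.1, by omega⟩
        have : (R i : ℤ) ≤ H := by exact_mod_cast h7
        rw [abs_le]
        exact ⟨by linarith, by linarith⟩) hx2.2.1 hx2.2.2 ⌈(Real.log H) ^ 3⌉₊ (Nat.le_ceil _)).1
      rwa [series_eq] at h4
    · have h3 := hc y (hexp y hy) (fun i => by
        have h4 := (hyr i).2
        have h5 : (0 : ℝ) < R i := by linarith [hR1 i]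
        have h6 : (R i : ℝ) ^ (3 - ε) = R i * (R i : ℝ) ^ (2 - ε) := by
          rw [show (3 - ε : ℝ) = 1 + (2 - ε) by ring, Real.rpow_add h5, Real.rpow_one]
        rw [h6] at h4
        refine (le_of_mul_le_mul_left h4 h5).trans ?_
        apply Real.rpow_le_rpow_of_exponent_le (hR1 i)
        linarith)
      rw [series_eq] at h3
      exact h3

end Pool.Agent.Results.MP_8bf9c2_nt.BeyondTheBox
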