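import Mathlib
import Pool.Agent.X58.IV.Forms
import Pool.Agent.X58.IV.Up
import Pool.Agent.X58.IV.Prm

set_option autoImplicit false
set_option maxHeartbeats 4000000

/-!
# MP_8bf9c2_nt: prime pairs in narrow arithmetic progressions, for a positive proportion of the gaps

For a positive proportion of the even numbers `h` the primes `p` with `p + h` prime contain arithmetic
progressions of `m` terms whose difference is at most a power of `log p`.
-/

namespace Pool.Agent.Results.MP_8bf9c2_nt.NarrowPrimePairs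

open Finset
open Pool.Agent.X58.IV
open Pool.Agent.Y843.HS (Pr VV Sv)

/-- `U` contains `m` terms of an arithmetic progression with common difference in `[1, D]` -/
def HasNarrowAP (m : ℕ) (D : ℝ) (U : Finset ℕ) : Prop :=
  ∃ a d : ℕ, 1 ≤ d ∧ (d : ℝ) ≤ D ∧ ∀ j < m, a + j * d ∈ U

/-- the primes `p` of `(X, 2X]` with `p + N` prime -/
def UU (X N : ℕ) : Finset ℕ := (Ioc X (2 * X)).filter (fun p => p.Prime ∧ (p + N).Prime)

/-- the residues of `0` and `-N` modulo `p` -/
def res (N : ℕ) (p : ℕ) : Finset ℕ := {0 % p, (p - N % p) % p}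

lemma adm_res (N : ℕ) (hN : Even N) : Adm 2 (res N) := by
  intro p hp
  refine ⟨card_le_two, ?_, fun c hc => ?_⟩
  · unfold res
    rcases hp.eq_two_or_odd' with h2 | hodd
    · subst h2
      rw [Nat.even_iff.1 hN]
      simp
    · have h3 : 3 ≤ p := by
        have := hp.two_le
        rcases hodd with ⟨k, hk⟩
        omega
      have h4 : ({0 % p, (p - N % p) % p} : Finset ℕ).card ≤ 2 := card_le_two
      omega
  · unfold res at hc
    rw [mem_insert, mem_singleton] at hc
    rcases hc with rfl | rfl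
    · exact Nat.mod_lt _ hp.pos
    · exact Nat.mod_lt _ hp.pos

/-! ### the local densities -/

/-- the primes up to `X` -/
def PP (X : ℕ) : Finset ℕ := (Ioc 0 X).filter Nat.Prime

/-- the singular factor -/
noncomputable def gg (X N : ℕ) : ℝ := ∏ p ∈ PP X, (1 + if p ∣ N then (2 / p : ℝ) else 0)

lemma fac_le (N p : ℕ) (hp : p.Prime) :
    1 - ((res N p).card : ℝ) / p ≤ (1 - 1 / (p : ℝ)) ^ 2 * (1 + if p ∣ N then (2 / p : ℝ) else 0) := by
  have hp2 : (2 : ℝ) ≤ p := by exact_mod_cast hp.two_le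
  have hp0 : (0 : ℝ) < p := by linarith
  obtain ⟨x, hx⟩ : ∃ x : ℝ, x = 1 / (p : ℝ) := ⟨_, rfl⟩
  have hx0 : 0 < x := by rw [hx]; positivity
  have hx2 : x ≤ 1 / 2 := by
    rw [hx]
    exact one_div_le_one_div_of_le (by norm_num) hp2
  by_cases h : p ∣ N
  · rw [if_pos h]
    have h1 : 1 ≤ (res N p).card := by
      unfold res
      exact card_pos.2 ⟨0 % p, mem_insert_self _ _⟩
    have h2 : x ≤ ((res N p).card : ℝ) / p := by
      rw [hx]
      have : (1 : ℝ) ≤ (res N p).card := by exact_mod_cast h1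
      gcongr
    have h3 : (2 / p : ℝ) = 2 * x := by rw [hx]; ring
    rw [h3, ← hx]
    have h4 : 1 - x ≤ (1 - x) ^ 2 * (1 + 2 * x) := by
      have : 0 ≤ (1 - x) * x * (1 - 2 * x) := by
        apply mul_nonneg (mul_nonneg _ hx0.le) <;> linarith
      nlinarith
    linarith
  · rw [if_neg h, add_zero, mul_one]
    have h1 : 2 ≤ (res N p).card := by
      unfold res
      rw [card_pair]
      rw [Nat.zero_mod]
      intro h'
      have h5 : N % p ≠ 0 := fun h6 => h (Nat.dvd_of_mod_eq_zero h6)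
      have h6 : N % p < p := Nat.mod_lt _ hp.pos
      rw [Nat.mod_eq_of_lt (by omega)] at h'
      omega
    have h2 : 2 * x ≤ ((res N p).card : ℝ) / p := by
      have : (2 : ℝ) ≤ (res N p).card := by exact_mod_cast h1
      calc 2 * x = 2 / p := by rw [hx]; ring
        _ ≤ _ := by gcongr
    rw [← hx]
    nlinarith [sq_nonneg x]

lemma vol_le : ∃ C : ℝ, 0 < C ∧ ∀ X N : ℕ, 2 ≤ X → Even N → VV (res N) 0 X ≤ C / Real.log X ^ 2 * gg X N := by
  obtain ⟨C, hC, h⟩ := VV_zero
  refine ⟨C ^ 2, by positivity, fun X N hX hN => ?_⟩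
  have hlog : 0 < Real.log X := Real.log_pos (by exact_mod_cast (by omega : 1 < X))
  have h1 : VV (res N) 0 X ≤ (VV (fun _ => ({0} : Finset ℕ)) 0 X) ^ 2 * gg X N := by
    unfold VV gg PP Pr
    rw [← prod_pow, ← prod_mul_distrib]
    apply prod_le_prod
    · intro p hp
      rw [mem_filter] at hp
      have h2 := (adm_res N hN p hp.2).2.1
      have hp0 : (0 : ℝ) < p := by exact_mod_cast hp.2.pos
      have h3 : ((res N p).card : ℝ) / p ≤ 1 := by
        rw [div_le_one hp0]
        exact_mod_cast h2.le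
      linarith
    · intro p hp
      rw [mem_filter] at hp
      have := fac_le N p hp.2
      simpa using this
  have h2 := h X hX
  have h3 : 0 ≤ VV (fun _ => ({0} : Finset ℕ)) 0 X := (VV_pos adm_zero 0 X).le
  have h4 : 0 ≤ gg X N := by
    unfold gg
    apply prod_nonneg
    intro p _
    split_ifs <;> positivity
  calc VV (res N) 0 X ≤ (VV (fun _ => ({0} : Finset ℕ)) 0 X) ^ 2 * gg X N := h1
    _ ≤ (C / Real.log X) ^ 2 * gg X N := by gcongr
    _ = _ := by rw [div_pow]

/-- the mean of a multiplicative function -/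
lemma mean (P : Finset ℕ) (hP : ∀ p ∈ P, p.Prime) (h : ℕ → ℝ) (hh : ∀ p, 0 ≤ h p) (Y : ℕ) :
    ∑ N ∈ Ioc 0 Y, ∏ p ∈ P, (1 + if p ∣ N then h p else 0) ≤ Y * ∏ p ∈ P, (1 + h p / p) := by
  classical
  have h1 : ∀ N : ℕ, ∏ p ∈ P, (1 + if p ∣ N then h p else 0) =
      ∑ S ∈ P.powerset, if (∀ p ∈ S, p ∣ N) then ∏ p ∈ S, h p else 0 := by
    intro N
    rw [prod_one_add]
    apply sum_congr rfl
    intro S _
    rw [prod_ite_zero]
  simp_rw [h1]
  rw [sum_comm, prod_one_add, mul_sum]
  apply sum_le_sum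
  intro S hS
  rw [mem_powerset] at hS
  rw [← sum_filter, sum_const, nsmul_eq_mul]
  have h2 : (Ioc 0 Y).filter (fun N => ∀ p ∈ S, p ∣ N) ⊆ (Ioc 0 Y).filter (fun N => (∏ p ∈ S, p) ∣ N) := by
    intro N hN
    rw [mem_filter] at hN ⊢
    refine ⟨hN.1, ?_⟩
    exact Finset.prod_primes_dvd N (fun p hp => (hP p (hS hp)).prime) hN.2
  have h3 : (((Ioc 0 Y).filter (fun N => ∀ p ∈ S, p ∣ N)).card : ℝ) ≤ Y / ∏ p ∈ S, (p : ℝ) := by
    have h4 := card_le_card h2
    rw [Nat.Ioc_filter_dvd_card_eq_div] at h4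
    calc (((Ioc 0 Y).filter (fun N => ∀ p ∈ S, p ∣ N)).card : ℝ) ≤ ((Y / ∏ p ∈ S, p : ℕ) : ℝ) := by
          exact_mod_cast h4
      _ ≤ (Y : ℝ) / ((∏ p ∈ S, p : ℕ) : ℝ) := Nat.cast_div_le
      _ = _ := by push_cast; rfl
  calc _ ≤ (Y / ∏ p ∈ S, (p : ℝ)) * ∏ p ∈ S, h p := by
        apply mul_le_mul_of_nonneg_right h3
        exact prod_nonneg (fun p _ => hh p)
    _ = _ := by rw [prod_div_distrib]; ring

lemma gg_sq (X Y : ℕ) : ∑ N ∈ Ioc 0 Y, gg X N ^ 2 ≤ Real.exp 8 * Y := by
  have hP : ∀ p ∈ PP X, p.Prime := fun p hp => (mem_filter.1 hp).2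
  have h1 : ∀ N, gg X N ^ 2 ≤ ∏ p ∈ PP X, (1 + if p ∣ N then (8 / p : ℝ) else 0) := by
    intro N
    unfold gg
    rw [← prod_pow]
    apply prod_le_prod
    · intro p _
      positivity
    · intro p hp
      have hp2 : (2 : ℝ) ≤ p := by exact_mod_cast (hP p hp).two_le
      split_ifs
      · have hx : (1 / p : ℝ) ≤ 1 / 2 := one_div_le_one_div_of_le (by norm_num) hp2
        have hx0 : (0 : ℝ) < 1 / p := by positivity
        have e1 : (2 / p : ℝ) = 2 * (1 / p) := by ring
        have e2 : (8 / p : ℝ) = 8 * (1 / p) := by ring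
        rw [e1, e2]
        nlinarith
      · norm_num
  calc ∑ N ∈ Ioc 0 Y, gg X N ^ 2 ≤ ∑ N ∈ Ioc 0 Y, ∏ p ∈ PP X, (1 + if p ∣ N then (8 / p : ℝ) else 0) :=
        sum_le_sum (fun N _ => h1 N)
    _ ≤ Y * ∏ p ∈ PP X, (1 + (8 / p : ℝ) / p) := mean (PP X) hP (fun p => 8 / p) (fun p => by positivity) Y
    _ ≤ Y * Real.exp 8 := by
        gcongr
        calc ∏ p ∈ PP X, (1 + (8 / p : ℝ) / p) ≤ ∏ p ∈ PP X, Real.exp ((8 / p : ℝ) / p) := by
              apply prod_le_prod
              · intro p _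
                positivity
              · intro p _
                rw [add_comm]
                exact Real.add_one_le_exp _
          _ = Real.exp (∑ p ∈ PP X, (8 / p : ℝ) / p) := (Real.exp_sum _ _).symm
          _ ≤ Real.exp 8 := by
              apply Real.exp_le_exp.2
              rcases Nat.eq_zero_or_pos X with h0 | h0
              · subst h0
                simp [PP]
              · have h2 : PP X ⊆ Ioc 1 X := by
                  intro p hp
                  have := hP p hp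
                  have h3 := mem_Ioc.1 (mem_filter.1 hp).1
                  exact mem_Ioc.2 ⟨this.one_lt, h3.2⟩
                calc ∑ p ∈ PP X, (8 / p : ℝ) / p ≤ ∑ p ∈ Ioc 1 X, (8 / p : ℝ) / p :=
                      sum_le_sum_of_subset_of_nonneg h2 (fun p _ _ => by positivity)
                  _ = 8 * ∑ p ∈ Ioc 1 X, ((p : ℝ) ^ 2)⁻¹ := by
                      rw [mul_sum]
                      apply sum_congr rfl
                      intro p _
                      rw [div_div, ← sq, div_eq_mul_inv]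
                  _ ≤ 8 * ((1 : ℝ)⁻¹ - (X : ℝ)⁻¹) := by
                      have := sum_Ioc_inv_sq_le_sub (α := ℝ) (k := 1) (n := X) one_ne_zero h0
                      rw [Nat.cast_one] at this
                      linarith
                  _ ≤ 8 := by
                      have : (0 : ℝ) ≤ (X : ℝ)⁻¹ := by positivity
                      rw [inv_one]
                      linarith
    _ = _ := by ring

/-! ### the representations -/

lemma sifted (X N : ℕ) : ∀ n ∈ UU X N, ∀ p : ℕ, p.Prime → (p : ℝ) ≤ (X : ℝ) ^ (1 : ℝ) → n % p ∉ res N p := by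
  intro n hn p hp hpX hmem
  have hn' := mem_filter.1 hn
  have hnI := mem_Ioc.1 hn'.1
  rw [Real.rpow_one] at hpX
  have hpX' : p ≤ X := by exact_mod_cast hpX
  unfold res at hmem
  rw [mem_insert, mem_singleton] at hmem
  rcases hmem with h | h
  · rw [Nat.zero_mod] at h
    have h2 := (Nat.prime_dvd_prime_iff_eq hp hn'.2.1).1 (Nat.dvd_of_mod_eq_zero h)
    omega
  · have h0 : N % p < p := Nat.mod_lt _ hp.pos
    have h1 : n ≡ p - N % p [MOD p] := h
    have h2 : n + N ≡ p - N % p + N % p [MOD p] := h1.add (Nat.mod_modEq N p).symm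
    have h3 : p - N % p + N % p = p := by omega
    rw [h3] at h2
    have h4 : p ∣ n + N := (Nat.modEq_zero_iff_dvd).1 (h2.trans (by simp [Nat.ModEq]))
    have h5 := (Nat.prime_dvd_prime_iff_eq hp hn'.2.2).1 h4
    omega

lemma sub_Ioc (X N : ℕ) : UU X N ⊆ Ioc X (X + X) := by
  intro n hn
  have := mem_Ioc.1 (mem_filter.1 hn).1
  exact mem_Ioc.2 ⟨this.1, by omega⟩

lemma up : ∃ C : ℝ, 0 < C ∧ ∃ X₀ : ℕ, ∀ X : ℕ, X₀ ≤ X → ∀ N : ℕ, Even N →
    ((UU X N).card : ℝ) ≤ C * X * VV (res N) 0 X := by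
  obtain ⟨C, hC, X₀, h⟩ := upZ 2 1 one_pos
  refine ⟨C, hC, X₀, fun X hX N hN => ?_⟩
  have h1 := h X X hX (res N) (adm_res N hN) (UU X N) (sub_Ioc X N) (sifted X N)
  have e : ⌊(X : ℝ) ^ (1 : ℝ)⌋₊ = X := by rw [Real.rpow_one, Nat.floor_natCast]
  rwa [e] at h1

lemma ap (m : ℕ) (ρ : ℝ) (hρ : 0 < ρ) : ∃ B X₀ : ℕ, ∀ X : ℕ, X₀ ≤ X → ∀ N : ℕ, Even N →
    ∀ U ⊆ UU X N, ρ * X * VV (res N) 0 X ≤ U.card → HasNarrowAP m (Real.log X ^ B) U := by
  obtain ⟨B, X₀, hB⟩ := Pool.Agent.Y843.HS.fin m 2 1 ρ one_pos hρ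
  refine ⟨B, X₀, fun X hX N hN U hU hc => ?_⟩
  have e : ⌊(X : ℝ) ^ (1 : ℝ)⌋₊ = X := by rw [Real.rpow_one, Nat.floor_natCast]
  apply hB X X hX (res N) (fun p hp _ => adm_res N hN p hp) U (hU.trans (sub_Ioc X N))
  · exact fun n hn => sifted X N n (hU hn)
  · rw [e]
    exact hc

/-- the even `N` of `(0, 3X]` -/
def EE (X : ℕ) : Finset ℕ := (Ioc 0 (3 * X)).filter Even

lemma total : ∃ X₀ : ℕ, ∀ X : ℕ, X₀ ≤ X →
    (X : ℝ) ^ 2 / (4 * Real.log X ^ 2) ≤ ∑ N ∈ EE X, ((UU X N).card : ℝ) := by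
  obtain ⟨x₀, h⟩ := primes_low
  refine ⟨max x₀ 3, fun X hX => ?_⟩
  have hX0 : x₀ ≤ X := (le_max_left _ _).trans hX
  have hX3 : 3 ≤ X := (le_max_right _ _).trans hX
  have hXr : (3 : ℝ) ≤ X := by exact_mod_cast hX3
  have hlog : 0 < Real.log X := Real.log_pos (by linarith)
  have h1 := h X hX0
  have h2 := h (2 * X) (by omega)
  set P := (Ioc X (2 * X)).filter Nat.Prime with hP
  set Q := (Ioc (2 * X) (2 * (2 * X))).filter Nat.Prime with hQ
  have h3 : (X : ℝ) / (2 * Real.log X) ≤ Q.card := by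
    refine le_trans ?_ h2
    have hl2 : Real.log ((2 * X : ℕ) : ℝ) ≤ 2 * Real.log X := by
      push_cast
      rw [Real.log_mul (by norm_num) (by linarith)]
      have : Real.log 2 ≤ Real.log X := Real.log_le_log (by norm_num) (by linarith)
      linarith
    have hl0 : 0 < Real.log ((2 * X : ℕ) : ℝ) := Real.log_pos (by push_cast; linarith)
    rw [div_le_div_iff₀ (by positivity) (by positivity)]
    push_cast at hl2 hl0 ⊢
    have hX0' : (0 : ℝ) ≤ X := by linarith
    nlinarith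
  have h4 : P.card * Q.card ≤ ∑ N ∈ EE X, (UU X N).card := by
    rw [← card_product, ← card_sigma]
    apply card_le_card_of_injOn (fun x : ℕ × ℕ => (⟨x.2 - x.1, x.1⟩ : (_ : ℕ) × ℕ))
    · rintro ⟨p, q⟩ hx
      rw [mem_coe, mem_product, hP, hQ, mem_filter, mem_filter, mem_Ioc, mem_Ioc] at hx
      obtain ⟨⟨hp1, hp2⟩, hq1, hq2⟩ := hx
      simp only at hp1 hp2 hq1 hq2
      rw [mem_coe, mem_sigma]
      have hpo : Odd p := hp2.odd_of_ne_two (by omega)
      have hqo : Odd q := hq2.odd_of_ne_two (by omega)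
      refine ⟨?_, ?_⟩
      · unfold EE
        rw [mem_filter, mem_Ioc]
        exact ⟨⟨by simp only; omega, by simp only; omega⟩, Nat.Odd.sub_odd hqo hpo⟩
      · unfold UU
        rw [mem_filter, mem_Ioc]
        have e : p + (q - p) = q := by omega
        simp only
        rw [e]
        exact ⟨hp1, hp2, hq2⟩
    · rintro ⟨p, q⟩ hx ⟨p', q'⟩ hx' heq
      rw [mem_coe, mem_product, hP, hQ, mem_filter, mem_filter, mem_Ioc, mem_Ioc] at hx hx'
      simp only at hx hx'
      simp only [Sigma.mk.injEq, heq_eq_eq] at heq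
      ext
      · exact heq.2
      · simp only
        omega
  have h5 : (P.card : ℝ) * Q.card ≤ ∑ N ∈ EE X, ((UU X N).card : ℝ) := by exact_mod_cast h4
  refine le_trans ?_ h5
  calc (X : ℝ) ^ 2 / (4 * Real.log X ^ 2) = (X / (2 * Real.log X)) * (X / (2 * Real.log X)) := by
        field_simp
        ring
    _ ≤ (P.card : ℝ) * Q.card := by
        apply mul_le_mul h1 h3 _ (Nat.cast_nonneg _)
        positivity

open Classical in
/-- a positive proportion of the `N` have many representations -/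
lemma many : ∃ ρ δ : ℝ, 0 < ρ ∧ 0 < δ ∧ ∃ X₀ : ℕ, ∀ X : ℕ, X₀ ≤ X →
    δ * X ≤ (((EE X).filter (fun N => ρ * X * VV (res N) 0 X ≤ ((UU X N).card : ℝ))).card : ℝ) := by
  obtain ⟨C, hC, X1, hup⟩ := up
  obtain ⟨D, hD, hvol⟩ := vol_le
  obtain ⟨X2, htot⟩ := total
  obtain ⟨K, hK⟩ : ∃ K : ℝ, K = 6 * Real.exp 8 := ⟨_, rfl⟩
  have hK0 : 0 < K := by rw [hK]; positivity
  obtain ⟨T, hT⟩ : ∃ T : ℝ, T = 16 * C * D * K := ⟨_, rfl⟩
  have hT0 : 0 < T := by rw [hT]; positivity
  obtain ⟨ρ, hρ⟩ : ∃ ρ : ℝ, ρ = 1 / (16 * D * (3 + K)) := ⟨_, rfl⟩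
  have hρ0 : 0 < ρ := by rw [hρ]; positivity
  refine ⟨ρ, 1 / (8 * C * D * T), hρ0, by positivity, max (max X1 X2) 3, fun X hX => ?_⟩
  have hX1 : X1 ≤ X := ((le_max_left _ _).trans (le_max_left _ _)).trans hX
  have hX2 : X2 ≤ X := ((le_max_right _ _).trans (le_max_left _ _)).trans hX
  have hX3 : 3 ≤ X := (le_max_right _ _).trans hX
  have hXr : (3 : ℝ) ≤ X := by exact_mod_cast hX3
  have hX0 : (0 : ℝ) < X := by linarith
  have hlog : 0 < Real.log X := Real.log_pos (by linarith)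
  set G := (EE X).filter (fun N => ρ * X * VV (res N) 0 X ≤ ((UU X N).card : ℝ)) with hG
  obtain ⟨L, hL⟩ : ∃ L : ℝ, L = D / Real.log X ^ 2 := ⟨_, rfl⟩
  have hL0 : 0 < L := by rw [hL]; positivity
  have hg0 : ∀ N, 0 ≤ gg X N := by
    intro N
    unfold gg
    apply prod_nonneg
    intro p _
    split_ifs <;> positivity
  have hEven : ∀ N ∈ EE X, Even N := fun N hN => (mem_filter.1 hN).2
  have hsq : ∑ N ∈ EE X, gg X N ^ 2 ≤ K * X := by
    calc ∑ N ∈ EE X, gg X N ^ 2 ≤ ∑ N ∈ Ioc 0 (6 * X), gg X N ^ 2 := by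
          apply sum_le_sum_of_subset_of_nonneg
          · intro N hN
            have := mem_Ioc.1 (mem_filter.1 hN).1
            exact mem_Ioc.2 ⟨this.1, by omega⟩
          · intro N _ _
            positivity
      _ ≤ Real.exp 8 * ((6 * X : ℕ) : ℝ) := gg_sq X (6 * X)
      _ = K * X := by rw [hK]; push_cast; ring
  have hcard : ((EE X).card : ℝ) ≤ 3 * X := by
    have h1 : (EE X).card ≤ 3 * X - 0 := by
      refine (card_filter_le _ _).trans ?_
      rw [Nat.card_Ioc]
    have h2 : (EE X).card ≤ 3 * X := by omega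
    exact_mod_cast h2
  -- pointwise
  have hpt : ∀ N ∈ EE X, ((UU X N).card : ℝ) ≤
      ρ * X * L * (1 + gg X N ^ 2) + (if N ∈ G then C * X * L * (T + gg X N ^ 2 / T) else 0) := by
    intro N hN
    have hv := hvol X N (by omega) (hEven N hN)
    rw [← hL] at hv
    by_cases hNG : N ∈ G
    · rw [if_pos hNG]
      have h1 : gg X N ≤ T + gg X N ^ 2 / T := by
        have h2 : 0 ≤ (gg X N - T) ^ 2 / T := by positivity
        have h3 : (gg X N - T) ^ 2 / T = gg X N ^ 2 / T - 2 * gg X N + T := by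
          field_simp
          ring
        have := hg0 N
        linarith
      have h4 : ((UU X N).card : ℝ) ≤ C * X * (L * gg X N) := by
        refine (hup X hX1 N (hEven N hN)).trans ?_
        gcongr
      have h5 : C * X * (L * gg X N) ≤ C * X * L * (T + gg X N ^ 2 / T) := by
        rw [← mul_assoc]
        gcongr
      have h6 : 0 ≤ ρ * X * L * (1 + gg X N ^ 2) := by positivity
      linarith
    · rw [if_neg hNG, add_zero]
      have h7 : ((UU X N).card : ℝ) < ρ * X * VV (res N) 0 X := by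
        by_contra hcon
        exact hNG (mem_filter.2 ⟨hN, not_lt.1 hcon⟩)
      have h8 : gg X N ≤ 1 + gg X N ^ 2 := by nlinarith [sq_nonneg (gg X N - 1), hg0 N]
      calc ((UU X N).card : ℝ) ≤ ρ * X * VV (res N) 0 X := h7.le
        _ ≤ ρ * X * (L * gg X N) := by gcongr
        _ = ρ * X * L * gg X N := by ring
        _ ≤ _ := by gcongr
  have hsum : ∑ N ∈ EE X, ((UU X N).card : ℝ) ≤
      ρ * X * L * ((3 + K) * X) + C * X * L * (T * G.card + K * X / T) := by
    calc ∑ N ∈ EE X, ((UU X N).card : ℝ) ≤ ∑ N ∈ EE X, (ρ * X * L * (1 + gg X N ^ 2) +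
          (if N ∈ G then C * X * L * (T + gg X N ^ 2 / T) else 0)) := sum_le_sum hpt
      _ = ρ * X * L * ∑ N ∈ EE X, (1 + gg X N ^ 2) +
          C * X * L * ∑ N ∈ G, (T + gg X N ^ 2 / T) := by
          rw [sum_add_distrib, ← mul_sum, ← sum_filter, ← mul_sum]
          congr 3
          ext N
          rw [mem_filter, and_iff_right_of_imp]
          exact fun hN => (mem_filter.1 hN).1
      _ ≤ _ := by
          have h1 : ∑ N ∈ EE X, (1 + gg X N ^ 2) ≤ (3 + K) * X := by
            rw [sum_add_distrib, sum_const, nsmul_eq_mul, mul_one]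
            linarith
          have h2 : ∑ N ∈ G, (T + gg X N ^ 2 / T) ≤ T * G.card + K * X / T := by
            rw [sum_add_distrib, sum_const, nsmul_eq_mul, ← sum_div]
            have h3 : ∑ N ∈ G, gg X N ^ 2 ≤ K * X := by
              refine le_trans ?_ hsq
              apply sum_le_sum_of_subset_of_nonneg (filter_subset _ _)
              intro N _ _
              positivity
            have h4 : (∑ N ∈ G, gg X N ^ 2) / T ≤ K * X / T := by gcongr
            linarith
          gcongr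
  have h1 := (htot X hX2).trans hsum
  have e1 : (X : ℝ) ^ 2 / (4 * Real.log X ^ 2) = X * L * (X / (4 * D)) := by
    rw [hL]
    field_simp
  have e2 : ρ * X * L * ((3 + K) * X) = X * L * (X / (16 * D)) := by
    rw [hρ]
    field_simp
  have e3 : C * X * L * (T * G.card + K * X / T) = X * L * (C * T * G.card + X / (16 * D)) := by
    have : C * (K * X / T) = X / (16 * D) := by
      rw [hT]
      field_simp
    rw [← this]
    ring
  rw [e1, e2, e3, ← mul_add] at h1
  have h2 : (X : ℝ) / (4 * D) ≤ X / (16 * D) + (C * T * G.card + X / (16 * D)) :=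
    le_of_mul_le_mul_left h1 (by positivity)
  have e4 : (X : ℝ) / (4 * D) = 4 * (X / (16 * D)) := by
    field_simp
    ring
  have e5 : 1 / (8 * C * D * T) * (X : ℝ) = 2 * (X / (16 * D)) / (C * T) := by
    field_simp
    ring
  rw [e5, div_le_iff₀ (by positivity)]
  rw [e4] at h2
  linarith

open Classical in
/-- the even `N` of `(0, 3X]` for which at least `ρ X / (log X) ^ 2` primes `p` of `(X, 2X]` have `p + N`
prime, and such that every set of at least `η` times all these `p` contains `m` terms of an arithmetic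
progression with difference in `[1, (log X) ^ B]` -/
noncomputable def good (ρ η : ℝ) (m B X : ℕ) : Finset ℕ :=
  (Ioc 0 (3 * X)).filter (fun N => Even N ∧ ρ * X / Real.log X ^ 2 ≤ ((UU X N).card : ℝ) ∧
    ∀ U ⊆ UU X N, η * ((UU X N).card : ℝ) ≤ U.card → HasNarrowAP m (Real.log X ^ B) U)

/-- **Prime pairs in narrow arithmetic progressions, for a positive proportion of the even numbers.** -/
theorem result : ∃ ρ δ : ℝ, 0 < ρ ∧ 0 < δ ∧ ∀ (m : ℕ) (η : ℝ), 0 < η → ∃ B X₀ : ℕ, ∀ X : ℕ, X₀ ≤ X →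
    δ * X ≤ ((good ρ η m B X).card : ℝ) := by
  classical
  obtain ⟨ρ, δ, hρ, hδ, X1, hmany⟩ := many
  obtain ⟨c, hc, hV⟩ := VV_ge 2
  refine ⟨ρ * c, δ, by positivity, hδ, fun m η hη => ?_⟩
  obtain ⟨B, X2, hap⟩ := ap m (η * ρ) (by positivity)
  refine ⟨B, max (max X1 X2) 2, fun X hX => ?_⟩
  have hX1 : X1 ≤ X := ((le_max_left _ _).trans (le_max_left _ _)).trans hX
  have hX2 : X2 ≤ X := ((le_max_right _ _).trans (le_max_left _ _)).trans hX
  have hX3 : 2 ≤ X := (le_max_right _ _).trans hX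
  refine (hmany X hX1).trans ?_
  have hsub : (EE X).filter (fun N => ρ * X * VV (res N) 0 X ≤ ((UU X N).card : ℝ)) ⊆
      good (ρ * c) η m B X := by
    intro N hN
    obtain ⟨hNE, hNc⟩ := mem_filter.1 hN
    obtain ⟨hNI, hNe⟩ := mem_filter.1 hNE
    unfold good
    rw [mem_filter]
    refine ⟨hNI, hNe, ?_, fun U hU hcU => ?_⟩
    · have h1 := hV (res N) (adm_res N hNe) X hX3
      calc ρ * c * X / Real.log X ^ 2 = ρ * X * (c / Real.log X ^ 2) := by ring
        _ ≤ ρ * X * VV (res N) 0 X := by gcongr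
        _ ≤ _ := hNc
    · apply hap X hX2 N hNe U hU
      calc η * ρ * X * VV (res N) 0 X = η * (ρ * X * VV (res N) 0 X) := by ring
        _ ≤ η * ((UU X N).card : ℝ) := by gcongr
        _ ≤ _ := hcU
  exact_mod_cast card_le_card hsub

end Pool.Agent.Results.MP_8bf9c2_nt.NarrowPrimePairs
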